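import Pool.Agent.Helper37.SU.Stmts

/-!
# Interpolation of restricted type estimates
-/

open Finset

namespace Pool.Agent.Helper37.SU

namespace INT72

/-- Dyadic level sets of a function with given `ℓ_p` norm. -/
theorem level (p γ : ℝ) (hp : 0 < p) (hγ : 0 < γ) (hpγ : p * γ < 1) : ∃ C : ℝ, 0 < C ∧
    ∀ (ι : Type) (S : Finset ι) (g : ι → ℝ), (∀ i, 0 ≤ g i) →
    ∃ (S' : Finset ι) (a : ι → ℕ) (N : ℕ), S' ⊆ S ∧ (∀ i ∈ S, i ∉ S' → g i = 0) ∧
      (∀ i ∈ S', g i ≤ (∑ i ∈ S, g i ^ p) ^ (1 / p) * (1 / 2) ^ (a i) ∧ a i < N) ∧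
      ∑ k ∈ range N, (1 / 2 : ℝ) ^ k * ((S'.filter (fun i => a i = k)).card : ℝ) ^ γ ≤ C := by
  classical
  set c : ℝ := (1 / 2 : ℝ) ^ p with hc
  have hc0 : 0 < c := by positivity
  set b : ℝ := c ^ γ with hb
  have hb0 : 0 < b := by positivity
  have hbh : (1 / 2 : ℝ) < b := by
    rw [hb, hc, ← Real.rpow_mul (by norm_num)]
    have := Real.rpow_lt_rpow_of_exponent_gt (x := (1 / 2 : ℝ)) (by norm_num) (by norm_num) hpγ
    rwa [Real.rpow_one] at this
  set ρ : ℝ := (1 / 2) / b with hρ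
  have hρ0 : 0 < ρ := by positivity
  have hρ1 : ρ < 1 := by rw [hρ, div_lt_one hb0]; exact hbh
  have h1ρ : 0 < 1 - ρ := by linarith
  refine ⟨b⁻¹ * (1 - ρ)⁻¹, by positivity, ?_⟩
  intro ι S g hg
  have hgp : ∀ i, 0 ≤ g i ^ p := fun i => Real.rpow_nonneg (hg i) _
  by_cases h0 : ∑ i ∈ S, g i ^ p = 0
  · refine ⟨∅, fun _ => 0, 0, Finset.empty_subset _, ?_, ?_, ?_⟩
    · intro i hi _
      have := (Finset.sum_eq_zero_iff_of_nonneg fun i _ => hgp i).1 h0 i hi
      exact (Real.rpow_eq_zero (hg i) hp.ne').1 this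
    · intro i hi
      simp at hi
    · simp only [range_zero, sum_empty]
      positivity
  · have hpos : 0 < ∑ i ∈ S, g i ^ p :=
      lt_of_le_of_ne (Finset.sum_nonneg fun i _ => hgp i) (Ne.symm h0)
    set G : ℝ := (∑ i ∈ S, g i ^ p) ^ (1 / p) with hG
    have hG0 : 0 < G := Real.rpow_pos_of_pos hpos _
    have hGp : G ^ p = ∑ i ∈ S, g i ^ p := by
      rw [hG, ← Real.rpow_mul hpos.le, one_div, inv_mul_cancel₀ hp.ne', Real.rpow_one]
    have hle : ∀ i ∈ S, g i ≤ G := by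
      intro i hi
      have h1 : g i ^ p ≤ G ^ p := by
        rw [hGp]
        exact Finset.single_le_sum (f := fun i => g i ^ p) (fun i _ => hgp i) hi
      exact (Real.rpow_le_rpow_iff (hg i) hG0.le hp).1 h1
    set S' : Finset ι := S.filter (fun i => g i ≠ 0) with hS'
    have hex : ∀ i, ∃ k : ℕ, i ∈ S' → (1 / 2 : ℝ) ^ (k + 1) < g i / G ∧
        g i / G ≤ (1 / 2 : ℝ) ^ k := by
      intro i
      by_cases hi : i ∈ S'
      · rw [hS', Finset.mem_filter] at hi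
        have hgi : 0 < g i := lt_of_le_of_ne (hg i) (Ne.symm hi.2)
        obtain ⟨k, hk⟩ := exists_nat_pow_near_of_lt_one (x := g i / G) (y := (1 / 2 : ℝ))
          (by positivity) ((div_le_one hG0).2 (hle i hi.1)) (by norm_num) (by norm_num)
        exact ⟨k, fun _ => hk⟩
      · exact ⟨0, fun h => absurd h hi⟩
    choose a ha using hex
    refine ⟨S', a, S'.sup a + 1, Finset.filter_subset _ _, ?_, ?_, ?_⟩
    · intro i hi hni
      by_contra h
      exact hni (Finset.mem_filter.2 ⟨hi, h⟩)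
    · intro i hi
      refine ⟨?_, Nat.lt_succ_of_le (Finset.le_sup hi)⟩
      have := (ha i hi).2
      rw [div_le_iff₀ hG0] at this
      linarith
    · have key : ∀ k, (1 / 2 : ℝ) ^ k * ((S'.filter (fun i => a i = k)).card : ℝ) ^ γ
          ≤ b⁻¹ * ρ ^ k := by
        intro k
        set F := S'.filter (fun i => a i = k) with hF
        have h1 : (F.card : ℝ) * c ^ (k + 1) ≤ 1 := by
          have h2 : ∀ i ∈ F, c ^ (k + 1) ≤ (g i / G) ^ p := by
            intro i hi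
            rw [hF, Finset.mem_filter] at hi
            have h3 := (ha i hi.1).1
            rw [hi.2] at h3
            have h4 : c ^ (k + 1) = ((1 / 2 : ℝ) ^ (k + 1)) ^ p := by
              rw [hc, ← Real.rpow_natCast, ← Real.rpow_natCast, ← Real.rpow_mul (by norm_num),
                ← Real.rpow_mul (by norm_num), mul_comm]
            rw [h4]
            exact Real.rpow_le_rpow (by positivity) h3.le hp.le
          calc (F.card : ℝ) * c ^ (k + 1) = ∑ i ∈ F, c ^ (k + 1) := by simp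
            _ ≤ ∑ i ∈ F, (g i / G) ^ p := Finset.sum_le_sum h2
            _ ≤ ∑ i ∈ S, (g i / G) ^ p := by
                refine Finset.sum_le_sum_of_subset_of_nonneg ?_ fun i _ _ =>
                  Real.rpow_nonneg (div_nonneg (hg i) hG0.le) _
                exact (Finset.filter_subset _ _).trans (Finset.filter_subset _ _)
            _ = 1 := by
                have : ∀ i, (g i / G) ^ p = g i ^ p / G ^ p := fun i =>
                  Real.div_rpow (hg i) hG0.le p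
                simp only [this]
                rw [← Finset.sum_div, hGp, div_self h0]
        have h5 : (F.card : ℝ) ^ γ * b ^ (k + 1) ≤ 1 := by
          have h6 : ((F.card : ℝ) * c ^ (k + 1)) ^ γ ≤ 1 :=
            Real.rpow_le_one (by positivity) h1 hγ.le
          have h7 : ((F.card : ℝ) * c ^ (k + 1)) ^ γ = (F.card : ℝ) ^ γ * b ^ (k + 1) := by
            rw [Real.mul_rpow (by positivity) (by positivity), hb, ← Real.rpow_natCast,
              ← Real.rpow_natCast, ← Real.rpow_mul hc0.le, ← Real.rpow_mul hc0.le, mul_comm γ]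
          rwa [h7] at h6
        have h8 : (F.card : ℝ) ^ γ ≤ (b ^ (k + 1))⁻¹ := by
          rw [← one_div, le_div_iff₀ (by positivity)]
          exact h5
        calc (1 / 2 : ℝ) ^ k * (F.card : ℝ) ^ γ ≤ (1 / 2 : ℝ) ^ k * (b ^ (k + 1))⁻¹ :=
              mul_le_mul_of_nonneg_left h8 (by positivity)
          _ = b⁻¹ * ρ ^ k := by
              have hk : ρ ^ k = (1 / 2) ^ k / b ^ k := by rw [hρ, div_pow]
              rw [hk, pow_succ, mul_inv, div_eq_mul_inv ((1 / 2 : ℝ) ^ k)]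
              ring
      refine (Finset.sum_le_sum fun k _ => key k).trans ?_
      rw [← Finset.mul_sum]
      refine mul_le_mul_of_nonneg_left ?_ (by positivity)
      rw [← tsum_geometric_of_lt_one hρ0.le hρ1]
      exact (summable_geometric_of_lt_one hρ0.le hρ1).sum_le_tsum _ fun k _ => by positivity

/-- The restricted type estimate for all subsets. -/
theorem restr {θ : ℝ} (h0 : 0 < θ) (h1 : θ < 1 / 2) {ι κ : Type} (S : Finset ι) (T : Finset κ)
    (e : ι → κ → ℝ) (he : ∀ i j, 0 ≤ e i j) (A D₀ D₁ : ℝ) (hA : 0 ≤ A) (hD₀ : 1 ≤ D₀)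
    (hD₁ : 0 ≤ D₁)
    (hr : ∀ S' : Finset ι, ∀ T' : Finset κ, S' ⊆ S → T' ⊆ T → (S'.card : ℝ) ≤ D₀ →
      (T'.card : ℝ) ≤ D₀ → ∑ i ∈ S', ∑ j ∈ T', e i j ≤ A * ((S'.card : ℝ) * T'.card) ^ (1 - θ))
    (hrow : ∀ i ∈ S, ∑ j ∈ T, e i j ≤ D₁) (hcol : ∀ j ∈ T, ∑ i ∈ S, e i j ≤ D₁)
    (S' : Finset ι) (T' : Finset κ) (hS : S' ⊆ S) (hT : T' ⊆ T) :
    ∑ i ∈ S', ∑ j ∈ T', e i j
      ≤ (A + D₁ * D₀ ^ (-(1 / 2 - θ))) * ((S'.card : ℝ) ^ (1 - θ) * (T'.card : ℝ) ^ (1 - θ)) := by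
  have hD0 : 0 < D₀ := by linarith
  have hmul : ((S'.card : ℝ) * T'.card) ^ (1 - θ)
      = (S'.card : ℝ) ^ (1 - θ) * (T'.card : ℝ) ^ (1 - θ) :=
    Real.mul_rpow (by positivity) (by positivity)
  rw [← hmul]
  have hnn : 0 ≤ ((S'.card : ℝ) * T'.card) ^ (1 - θ) := by positivity
  have hDn : 0 ≤ D₁ * D₀ ^ (-(1 / 2 - θ)) := by positivity
  rcases Finset.eq_empty_or_nonempty S' with rfl | hSn
  · simp only [sum_empty]
    positivity
  rcases Finset.eq_empty_or_nonempty T' with rfl | hTn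
  · simp only [sum_empty, sum_const_zero]
    positivity
  by_cases hc : (S'.card : ℝ) ≤ D₀ ∧ (T'.card : ℝ) ≤ D₀
  · refine (hr S' T' hS hT hc.1 hc.2).trans ?_
    exact mul_le_mul_of_nonneg_right (by linarith) hnn
  · have hs1 : (1 : ℝ) ≤ S'.card := by exact_mod_cast hSn.card_pos
    have ht1 : (1 : ℝ) ≤ T'.card := by exact_mod_cast hTn.card_pos
    have hP : D₀ ≤ (S'.card : ℝ) * T'.card := by
      by_cases h : (S'.card : ℝ) ≤ D₀
      · have h2 : D₀ < T'.card := by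
          by_contra h3
          exact hc ⟨h, not_lt.1 h3⟩
        nlinarith
      · rw [not_le] at h
        nlinarith
    have hP0 : 0 < (S'.card : ℝ) * T'.card := by linarith
    have hm1 : ∑ i ∈ S', ∑ j ∈ T', e i j ≤ D₁ * S'.card := by
      calc ∑ i ∈ S', ∑ j ∈ T', e i j ≤ ∑ i ∈ S', D₁ := by
            refine Finset.sum_le_sum fun i hi => le_trans ?_ (hrow i (hS hi))
            exact Finset.sum_le_sum_of_subset_of_nonneg hT fun j _ _ => he i j
        _ = D₁ * S'.card := by simp [mul_comm]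
    have hm2 : ∑ i ∈ S', ∑ j ∈ T', e i j ≤ D₁ * T'.card := by
      rw [Finset.sum_comm]
      calc ∑ j ∈ T', ∑ i ∈ S', e i j ≤ ∑ j ∈ T', D₁ := by
            refine Finset.sum_le_sum fun j hj => le_trans ?_ (hcol j (hT hj))
            exact Finset.sum_le_sum_of_subset_of_nonneg hS fun i _ _ => he i j
        _ = D₁ * T'.card := by simp [mul_comm]
    set M := ∑ i ∈ S', ∑ j ∈ T', e i j with hM
    have hM0 : 0 ≤ M := Finset.sum_nonneg fun i _ => Finset.sum_nonneg fun j _ => he i j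
    have hsq : M ≤ D₁ * ((S'.card : ℝ) * T'.card) ^ (1 / 2 : ℝ) := by
      rw [← Real.sqrt_eq_rpow]
      have h3 : M ^ 2 ≤ D₁ ^ 2 * ((S'.card : ℝ) * T'.card) := by
        have := mul_le_mul hm1 hm2 hM0 (by positivity)
        nlinarith [this]
      have h4 : M ≤ √(D₁ ^ 2 * ((S'.card : ℝ) * T'.card)) := Real.le_sqrt_of_sq_le h3
      rwa [Real.sqrt_mul (sq_nonneg _), Real.sqrt_sq hD₁] at h4
    refine hsq.trans ?_
    have h5 : ((S'.card : ℝ) * T'.card) ^ (1 / 2 : ℝ)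
        = ((S'.card : ℝ) * T'.card) ^ (-(1 / 2 - θ)) * ((S'.card : ℝ) * T'.card) ^ (1 - θ) := by
      rw [← Real.rpow_add hP0]
      congr 1
      ring
    have h6 : ((S'.card : ℝ) * T'.card) ^ (-(1 / 2 - θ)) ≤ D₀ ^ (-(1 / 2 - θ)) :=
      Real.rpow_le_rpow_of_nonpos hD0 hP (by linarith)
    rw [h5]
    calc D₁ * (((S'.card : ℝ) * T'.card) ^ (-(1 / 2 - θ)) * ((S'.card : ℝ) * T'.card) ^ (1 - θ))
        ≤ D₁ * (D₀ ^ (-(1 / 2 - θ)) * ((S'.card : ℝ) * T'.card) ^ (1 - θ)) :=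
          mul_le_mul_of_nonneg_left (mul_le_mul_of_nonneg_right h6 hnn) hD₁
      _ = (D₁ * D₀ ^ (-(1 / 2 - θ))) * ((S'.card : ℝ) * T'.card) ^ (1 - θ) := by ring
      _ ≤ (A + D₁ * D₀ ^ (-(1 / 2 - θ))) * ((S'.card : ℝ) * T'.card) ^ (1 - θ) :=
          mul_le_mul_of_nonneg_right (by linarith) hnn

/-- The bilinear form. -/
theorem bilin {γ p q : ℝ} (hp : 0 < p) (hq : 0 < q) (hγ : 0 < γ) (hpγ : p * γ < 1)
    (hqγ : q * γ < 1) : ∃ C : ℝ, 0 < C ∧
    ∀ (ι κ : Type) (S : Finset ι) (T : Finset κ) (e : ι → κ → ℝ) (B : ℝ) (w : ι → ℝ)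
      (z : κ → ℝ), 0 ≤ B → (∀ i j, 0 ≤ e i j) → (∀ i, 0 ≤ w i) → (∀ j, 0 ≤ z j) →
      (∀ S' ⊆ S, ∀ T' ⊆ T, ∑ i ∈ S', ∑ j ∈ T', e i j
        ≤ B * ((S'.card : ℝ) ^ γ * (T'.card : ℝ) ^ γ)) →
      ∑ i ∈ S, ∑ j ∈ T, w i * e i j * z j ≤
        C * B * ((∑ j ∈ T, z j ^ q) ^ (1 / q)) * ((∑ i ∈ S, w i ^ p) ^ (1 / p)) := by
  classical
  obtain ⟨C₁, hC₁, h₁⟩ := level p γ hp hγ hpγ
  obtain ⟨C₂, hC₂, h₂⟩ := level q γ hq hγ hqγ
  refine ⟨C₁ * C₂, by positivity, ?_⟩
  intro ι κ S T e B w z hB he hw hz hr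
  obtain ⟨S', a, N, hS, hS0, hSa, hSs⟩ := h₁ ι S w hw
  obtain ⟨T', c, N', hT, hT0, hTc, hTs⟩ := h₂ κ T z hz
  set G := (∑ i ∈ S, w i ^ p) ^ (1 / p) with hG
  set H := (∑ j ∈ T, z j ^ q) ^ (1 / q) with hH
  have hG0 : 0 ≤ G := Real.rpow_nonneg (Finset.sum_nonneg fun i _ => Real.rpow_nonneg (hw i) _) _
  have hH0 : 0 ≤ H := Real.rpow_nonneg (Finset.sum_nonneg fun i _ => Real.rpow_nonneg (hz i) _) _
  have e1 : ∑ i ∈ S, ∑ j ∈ T, w i * e i j * z j = ∑ i ∈ S', ∑ j ∈ T', w i * e i j * z j := by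
    rw [← Finset.sum_subset hS fun i hi hn => by
      rw [hS0 i hi hn]; simp]
    refine Finset.sum_congr rfl fun i _ => ?_
    rw [← Finset.sum_subset hT fun j hj hn => by
      rw [hT0 j hj hn]; simp]
  have e2 : ∑ i ∈ S', ∑ j ∈ T', w i * e i j * z j
      ≤ ∑ i ∈ S', ∑ j ∈ T', (G * (1 / 2) ^ (a i)) * e i j * (H * (1 / 2) ^ (c j)) := by
    refine Finset.sum_le_sum fun i hi => Finset.sum_le_sum fun j hj => ?_
    have h3 := (hSa i hi).1
    have h4 := (hTc j hj).1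
    have h5 := he i j
    have h6 := hw i
    have h7 := hz j
    gcongr
  have e3 : ∑ i ∈ S', ∑ j ∈ T', (G * (1 / 2 : ℝ) ^ (a i)) * e i j * (H * (1 / 2) ^ (c j))
      = ∑ k ∈ range N, ∑ l ∈ range N', (G * H * ((1 / 2) ^ k * (1 / 2) ^ l)) *
        ∑ i ∈ S'.filter (fun i => a i = k), ∑ j ∈ T'.filter (fun j => c j = l), e i j := by
    rw [← Finset.sum_fiberwise_of_maps_to (s := S') (t := range N) (g := a)
      fun i hi => Finset.mem_range.2 (hSa i hi).2]
    refine Finset.sum_congr rfl fun k _ => ?_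
    rw [Finset.sum_comm, ← Finset.sum_fiberwise_of_maps_to (s := T') (t := range N') (g := c)
      fun i hi => Finset.mem_range.2 (hTc i hi).2]
    refine Finset.sum_congr rfl fun l _ => ?_
    rw [Finset.sum_comm (s := S'.filter (fun i => a i = k)), Finset.mul_sum]
    refine Finset.sum_congr rfl fun j hj => ?_
    rw [Finset.mul_sum]
    refine Finset.sum_congr rfl fun i hi => ?_
    rw [(Finset.mem_filter.1 hi).2, (Finset.mem_filter.1 hj).2]
    ring
  have e4 : ∑ k ∈ range N, ∑ l ∈ range N', (G * H * ((1 / 2 : ℝ) ^ k * (1 / 2) ^ l)) *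
        ∑ i ∈ S'.filter (fun i => a i = k), ∑ j ∈ T'.filter (fun j => c j = l), e i j
      ≤ ∑ k ∈ range N, ∑ l ∈ range N', (G * H * ((1 / 2 : ℝ) ^ k * (1 / 2) ^ l)) *
        (B * (((S'.filter (fun i => a i = k)).card : ℝ) ^ γ
          * ((T'.filter (fun j => c j = l)).card : ℝ) ^ γ)) := by
    refine Finset.sum_le_sum fun k _ => Finset.sum_le_sum fun l _ => ?_
    exact mul_le_mul_of_nonneg_left (hr _ ((Finset.filter_subset _ _).trans hS) _
      ((Finset.filter_subset _ _).trans hT)) (by positivity)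
  have e5 : ∑ k ∈ range N, ∑ l ∈ range N', (G * H * ((1 / 2 : ℝ) ^ k * (1 / 2) ^ l)) *
        (B * (((S'.filter (fun i => a i = k)).card : ℝ) ^ γ
          * ((T'.filter (fun j => c j = l)).card : ℝ) ^ γ))
      = B * H * G * ((∑ k ∈ range N, (1 / 2 : ℝ) ^ k * ((S'.filter (fun i => a i = k)).card : ℝ) ^ γ)
        * ∑ l ∈ range N', (1 / 2 : ℝ) ^ l * ((T'.filter (fun j => c j = l)).card : ℝ) ^ γ) := by
    rw [Finset.sum_mul_sum, Finset.mul_sum]
    refine Finset.sum_congr rfl fun k _ => ?_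
    rw [Finset.mul_sum]
    refine Finset.sum_congr rfl fun l _ => ?_
    ring
  rw [e1]
  refine e2.trans (e3.trans_le (e4.trans (e5.trans_le ?_)))
  have h8 := mul_le_mul hSs hTs (Finset.sum_nonneg fun l _ => by positivity) hC₁.le
  calc B * H * G * _ ≤ B * H * G * (C₁ * C₂) := mul_le_mul_of_nonneg_left h8 (by positivity)
    _ = _ := by ring

end INT72

theorem st_INT (h1 : ST_DLV) : ST_INT := by
  intro u v θ hθ0 hθ1 hu hv1 hv
  have hu2 : 2 < u := by
    have : 2 < 1 / θ := by rw [lt_div_iff₀ hθ0]; linarith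
    linarith
  have hu' : 0 < u / (u - 1) := div_pos (by linarith) (by linarith)
  have hγ : 0 < 1 - θ := by linarith
  have hpγ : u / (u - 1) * (1 - θ) < 1 := by
    have h2 : 1 < u * θ := by
      rw [div_lt_iff₀ hθ0] at hu
      exact hu
    rw [div_mul_eq_mul_div, div_lt_one (by linarith)]
    nlinarith
  have hqγ : v * (1 - θ) < 1 := by
    rwa [lt_div_iff₀ hγ] at hv
  obtain ⟨C, hC, hbi⟩ := INT72.bilin hu' (by linarith : (0 : ℝ) < v) hγ hpγ hqγ
  refine ⟨C, 1 / 2 - θ, hC, by linarith, ?_⟩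
  intro ι κ S T e A D₀ D₁ z hA hD₀ hD₁ hr hrow hcol
  have hB : 0 ≤ A + D₁ * D₀ ^ (-(1 / 2 - θ)) := by
    have : 0 ≤ D₀ := by linarith
    positivity
  have hlp : 0 ≤ lp v T z := Real.rpow_nonneg (Finset.sum_nonneg fun i _ => by positivity) _
  refine h1 ι u _ S _ (by linarith) (by positivity) fun w => ?_
  have hre := INT72.restr hθ0 hθ1 S T (fun i j => ‖e i j‖) (fun i j => norm_nonneg _) A D₀ D₁
    hA hD₀ hD₁ hr hrow hcol
  have h := hbi ι κ S T (fun i j => ‖e i j‖) _ (fun i => ‖w i‖) (fun j => ‖z j‖) hB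
    (fun i j => norm_nonneg _) (fun i => norm_nonneg _) (fun j => norm_nonneg _)
    (fun S' hS T' hT => hre S' T' hS hT)
  refine le_trans ?_ h
  refine (norm_sum_le _ _).trans (Finset.sum_le_sum fun i _ => ?_)
  rw [norm_mul]
  refine (mul_le_mul_of_nonneg_left (norm_sum_le _ _) (norm_nonneg _)).trans ?_
  rw [Finset.mul_sum]
  refine Finset.sum_le_sum fun j _ => ?_
  rw [norm_mul]
  exact (mul_assoc _ _ _).ge

end Pool.Agent.Helper37.SU
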