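import Pool.Agent.Helper37.SU.Stmts

/-!
# The sum over the middle levels
-/

open Finset

namespace Pool.Agent.Helper37.SU

namespace NMI72

theorem geo_sum {r : ℝ} (h0 : 0 ≤ r) (h1 : r < 1) {ι : Type*} (S : Finset ι) (f : ι → ℕ)
    (hf : Set.InjOn f (S : Set ι)) : ∑ i ∈ S, r ^ f i ≤ (1 - r)⁻¹ := by
  classical
  rw [← Finset.sum_image (f := fun k => r ^ k) hf, ← tsum_geometric_of_lt_one h0 h1]
  exact (summable_geometric_of_lt_one h0 h1).sum_le_tsum _ fun k _ => by positivity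

theorem upper {β : ℝ} (hβ : 1 < β) (γ : ℝ) (hγ : 0 < γ) (n L : ℕ) :
    ∑ l ∈ Ioc n L, β ^ (-((l : ℝ) * γ)) ≤ (1 - β ^ (-γ))⁻¹ * β ^ (-((n : ℝ) * γ)) := by
  have hβ0 : 0 < β := by linarith
  set r : ℝ := β ^ (-γ) with hr
  have hr0 : 0 < r := by positivity
  have hr1 : r < 1 := Real.rpow_lt_one_of_one_lt_of_neg hβ (by linarith)
  have h1 : ∀ l : ℕ, β ^ (-((l : ℝ) * γ)) = r ^ l := by
    intro l
    rw [hr, ← Real.rpow_natCast, ← Real.rpow_mul hβ0.le]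
    congr 1
    ring
  simp only [h1]
  have h2 : ∑ l ∈ Ioc n L, r ^ l = (∑ l ∈ Ioc n L, r ^ (l - n)) * r ^ n := by
    rw [Finset.sum_mul]
    refine Finset.sum_congr rfl fun l hl => ?_
    rw [Finset.mem_Ioc] at hl
    rw [← pow_add, Nat.sub_add_cancel hl.1.le]
  rw [h2]
  refine mul_le_mul_of_nonneg_right ?_ (by positivity)
  refine geo_sum hr0.le hr1 _ _ ?_
  intro a ha c hc h
  simp only [coe_Ioc, Set.mem_Ioc] at ha hc h
  omega

theorem lower {r : ℝ} (h0 : 0 ≤ r) (h1 : r < 1) (n₀ n : ℕ) :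
    ∑ l ∈ Icc n₀ n, r ^ (n - l) ≤ (1 - r)⁻¹ := by
  refine geo_sum h0 h1 _ _ ?_
  intro a ha c hc h
  simp only [coe_Icc, Set.mem_Icc] at ha hc
  omega

theorem exps {β : ℝ} (hβ : 0 < β) (θ q : ℝ) (l k m : ℕ) :
    β ^ (-((l : ℝ) / q)) * (β ^ l / β ^ m) * (β ^ k) ^ θ
      = β ^ (-(((l + k : ℕ) : ℝ) / q)) * (β ^ (l + k) / β ^ m)
        * (β ^ (-(1 - θ - 1 / q))) ^ k := by
  have h1 : (β ^ k) ^ θ = β ^ ((k : ℝ) * θ) := by
    rw [← Real.rpow_natCast, ← Real.rpow_mul hβ.le]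
  have h2 : (β ^ (-(1 - θ - 1 / q))) ^ k = β ^ (-(1 - θ - 1 / q) * k) := by
    rw [← Real.rpow_natCast, ← Real.rpow_mul hβ.le]
  rw [h1, h2, div_eq_mul_inv (β ^ l), div_eq_mul_inv (β ^ (l + k)), ← Real.rpow_natCast β l,
    ← Real.rpow_natCast β (l + k)]
  have h3 : β ^ (-((l : ℝ) / q)) * (β ^ (l : ℝ) * (β ^ m)⁻¹) * β ^ ((k : ℝ) * θ)
      = β ^ (-((l : ℝ) / q) + l + k * θ) * (β ^ m)⁻¹ := by
    rw [Real.rpow_add hβ, Real.rpow_add hβ]
    ring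
  have h4 : β ^ (-(((l + k : ℕ) : ℝ) / q)) * (β ^ ((l + k : ℕ) : ℝ) * (β ^ m)⁻¹)
        * β ^ (-(1 - θ - 1 / q) * k)
      = β ^ (-(((l + k : ℕ) : ℝ) / q) + ((l + k : ℕ) : ℝ) + -(1 - θ - 1 / q) * k)
        * (β ^ m)⁻¹ := by
    rw [Real.rpow_add hβ, Real.rpow_add hβ]
    ring
  rw [h3, h4]
  congr 2
  push_cast
  ring

end NMI72

open NMI72 in
theorem st_NMI : ST_NMI := by
  intro b γ θ q hb hγ hθ0 hθ1 hq
  set β : ℝ := (b : ℝ) with hβ
  have hβ2 : 2 ≤ β := by rw [hβ]; exact_mod_cast hb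
  have hβ0 : 0 < β := by linarith
  have hβ1 : 1 < β := by linarith
  set s : ℝ := 1 - θ - 1 / q with hs
  have hs0 : 0 < s := by
    have : 1 / q < 1 / 2 := by
      apply one_div_lt_one_div_of_lt <;> linarith
    linarith
  have hr2 : β ^ (-s) < 1 := Real.rpow_lt_one_of_one_lt_of_neg hβ1 (by linarith)
  have hr2' : 0 < β ^ (-s) := by positivity
  have hr1 : β ^ (-γ) < 1 := Real.rpow_lt_one_of_one_lt_of_neg hβ1 (by linarith)
  have hp1 : 0 < (1 - β ^ (-s))⁻¹ := inv_pos.2 (by linarith)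
  have hp2 : 0 < (1 - β ^ (-γ))⁻¹ := inv_pos.2 (by linarith)
  refine ⟨(4 * β) ^ θ * (1 - β ^ (-s))⁻¹ * (1 - β ^ (-γ))⁻¹, by positivity, ?_⟩
  intro n₀ n₁ n m L N hN hnm h1 h2
  have hN0 : 0 < N := by linarith
  set K : ℝ := (4 * β) ^ θ * N ^ (2 * θ) * (β ^ n / β ^ m) * β ^ (-((n : ℝ) / q)) with hK
  have hK0 : 0 < K := by positivity
  have key : ∀ l ∈ Icc n₀ n, ∀ l' ∈ Ioc n₁ L,
      β ^ (-((l : ℝ) / q)) * β ^ (-((l' : ℝ) * γ)) * ((β ^ l / β ^ m) *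
        ((N + β ^ m / β ^ l) * (N + β ^ m / β ^ l')) ^ θ)
      ≤ K * (β ^ (-s)) ^ (n - l) * β ^ (-((l' : ℝ) * γ)) := by
    intro l hl l' hl'
    rw [Finset.mem_Icc] at hl
    rw [Finset.mem_Ioc] at hl'
    obtain ⟨k, hk⟩ := Nat.exists_eq_add_of_le hl.2
    have hnl : n - l = k := by omega
    have h3 : N + β ^ m / β ^ l ≤ 2 * β * N * β ^ k := by
      have h4 : β ^ m / β ^ l ≤ β * N * β ^ k := by
        rw [div_le_iff₀ (by positivity)]
        calc β ^ m ≤ β * N * β ^ n := h1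
          _ = β * N * β ^ k * β ^ l := by rw [hk, pow_add]; ring
      have h5 : N ≤ β * N * β ^ k := by
        have h6 : 1 ≤ β ^ k := one_le_pow₀ hβ1.le
        nlinarith [mul_nonneg hN0.le (sub_nonneg.2 h6), mul_pos hN0 (by positivity : 0 < β ^ k)]
      linarith
    have h7 : N + β ^ m / β ^ l' ≤ 2 * N := by
      have h8 : β ^ m / β ^ l' ≤ N := by
        rw [div_le_iff₀ (by positivity)]
        have h9 : β ^ (n₁ + 1) ≤ β ^ l' := pow_le_pow_right₀ hβ1.le hl'.1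
        calc β ^ m ≤ β * N * β ^ n₁ := h2
          _ = N * β ^ (n₁ + 1) := by rw [pow_succ]; ring
          _ ≤ N * β ^ l' := mul_le_mul_of_nonneg_left h9 hN0.le
      linarith
    have h10 : ((N + β ^ m / β ^ l) * (N + β ^ m / β ^ l')) ^ θ
        ≤ (4 * β) ^ θ * N ^ (2 * θ) * (β ^ k) ^ θ := by
      have h11 : (N + β ^ m / β ^ l) * (N + β ^ m / β ^ l') ≤ (4 * β) * (N ^ 2) * β ^ k := by
        calc (N + β ^ m / β ^ l) * (N + β ^ m / β ^ l')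
            ≤ (2 * β * N * β ^ k) * (2 * N) := mul_le_mul h3 h7 (by positivity) (by positivity)
          _ = (4 * β) * (N ^ 2) * β ^ k := by ring
      have h12 : N ^ (2 * θ) = (N ^ 2) ^ θ := by
        rw [← Real.rpow_natCast, ← Real.rpow_mul hN0.le]
        norm_num
      rw [h12, ← Real.mul_rpow (by positivity) (by positivity),
        ← Real.mul_rpow (by positivity) (by positivity)]
      exact Real.rpow_le_rpow (by positivity) h11 hθ0.le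
    have h13 := exps hβ0 θ q l k m
    rw [← hk, ← hs] at h13
    rw [hnl]
    calc β ^ (-((l : ℝ) / q)) * β ^ (-((l' : ℝ) * γ)) * ((β ^ l / β ^ m) *
        ((N + β ^ m / β ^ l) * (N + β ^ m / β ^ l')) ^ θ)
        ≤ β ^ (-((l : ℝ) / q)) * β ^ (-((l' : ℝ) * γ)) * ((β ^ l / β ^ m) *
          ((4 * β) ^ θ * N ^ (2 * θ) * (β ^ k) ^ θ)) :=
          mul_le_mul_of_nonneg_left (mul_le_mul_of_nonneg_left h10 (by positivity)) (by positivity)
      _ = (4 * β) ^ θ * N ^ (2 * θ) * (β ^ (-((l : ℝ) / q)) * (β ^ l / β ^ m) * (β ^ k) ^ θ)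
          * β ^ (-((l' : ℝ) * γ)) := by ring
      _ = K * (β ^ (-s)) ^ k * β ^ (-((l' : ℝ) * γ)) := by
          rw [h13, hK]
          ring
  refine (Finset.sum_le_sum fun l hl => Finset.sum_le_sum fun l' hl' => key l hl l' hl').trans ?_
  have hfac : ∑ l ∈ Icc n₀ n, ∑ l' ∈ Ioc n₁ L,
      K * (β ^ (-s)) ^ (n - l) * β ^ (-((l' : ℝ) * γ))
      = K * ((∑ l ∈ Icc n₀ n, (β ^ (-s)) ^ (n - l)) * ∑ l' ∈ Ioc n₁ L, β ^ (-((l' : ℝ) * γ))) := by
    rw [Finset.sum_mul_sum, Finset.mul_sum]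
    refine Finset.sum_congr rfl fun l _ => ?_
    rw [Finset.mul_sum]
    exact Finset.sum_congr rfl fun l' _ => by ring
  rw [hfac]
  have hA := lower hr2'.le hr2 n₀ n
  have hB := upper hβ1 γ hγ n₁ L
  have hAB := mul_le_mul hA hB (Finset.sum_nonneg fun l _ => by positivity) hp1.le
  refine (mul_le_mul_of_nonneg_left hAB hK0.le).trans_eq ?_
  rw [hK]
  ring

end Pool.Agent.Helper37.SU
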