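import Pool.Agent.Helper37.SU.Stmts

/-!
# Synthesis
-/

open MeasureTheory Finset
open scoped ENNReal Classical

namespace Pool.Agent.Helper37.SU

theorem st_SYN (hSYI : ST_SYI) (hTRL : ST_TRL) (hIXB : ST_IXB) : ST_SYN := by
  intro b d u q hb hu huq
  obtain ⟨C₁, hC₁, h₁⟩ := hSYI b d u q hb hu huq
  obtain ⟨C₂, hC₂, h₂⟩ := hTRL b d hb
  refine ⟨C₂ * C₁, by positivity, ?_⟩
  intro l I β y g hβ hinj hg
  obtain ⟨K, w, π, hw0, hwC, hπ, hπi, hEV⟩ := h₂ l
  have hmeas : ∀ B : Bo d, MeasurableSet {t : TT d | inB b B t} :=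
    (hIXB b hb).2.2.2.2.2.2.1 d
  set X : ℝ := C₁ * (b : ℝ) ^ (-((l : ℝ) / q)) * lp u I y with hX
  have hlp : 0 ≤ lp u I y := Real.rpow_nonneg (Finset.sum_nonneg fun i _ => by positivity) _
  have hX0 : 0 ≤ X := by positivity
  -- one translate
  set G : (Fin d → ℤ) → TT d → ℝ := fun k t =>
    ∑ B ∈ I, ‖y B‖ * (if inB b (π k (β B)) t then 1 else 0) with hG
  have hGm : ∀ k, Measurable (G k) := by
    intro k
    rw [hG]
    refine Finset.measurable_fun_sum _ fun B _ => ?_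
    exact (Measurable.ite (hmeas _) measurable_const measurable_const).const_mul _
  have hGk : ∀ k ∈ K, eLpNorm (G k) (ENNReal.ofReal q) (haar d) ≤ ENNReal.ofReal X := by
    intro k hk
    set γ : Bo d → Bo d := fun B => π k (β B) with hγ
    have hγi : Set.InjOn γ (I : Set (Bo d)) := by
      intro B hB B' hB' h
      exact hinj hB hB' (hπi k hk (Finset.mem_coe.2 (hβ B hB)) (Finset.mem_coe.2 (hβ B' hB')) h)
    set y' : Bo d → ℝ := fun B' => ‖y (Function.invFunOn γ (I : Set (Bo d)) B')‖ with hy'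
    have hy'B : ∀ B ∈ I, y' (γ B) = ‖y B‖ := by
      intro B hB
      rw [hy']
      simp only
      rw [hγi.leftInvOn_invFunOn (Finset.mem_coe.2 hB)]
    have h3 := h₁ l (I.image γ) y' (by
      intro B' hB'
      obtain ⟨B, hB, rfl⟩ := Finset.mem_image.1 hB'
      exact hπ k hk _ (hβ B hB)) (fun B _ => norm_nonneg _)
    have h4 : (fun t : TT d => ∑ B ∈ I.image γ, y' B * (if inB b B t then 1 else 0)) = G k := by
      funext t
      rw [Finset.sum_image hγi, hG]
      exact Finset.sum_congr rfl fun B hB => by rw [hy'B B hB]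
    have h5 : ∑ B ∈ I.image γ, y' B ^ u = ∑ B ∈ I, ‖y B‖ ^ u := by
      rw [Finset.sum_image hγi]
      exact Finset.sum_congr rfl fun B hB => by rw [hy'B B hB]
    rw [h4, h5] at h3
    exact h3
  -- the pointwise bound
  have hpt : ∀ t, ‖∑ B ∈ I, y B * g B t‖ ≤ (∑ k ∈ K, w k • G k) t := by
    intro t
    refine (norm_sum_le _ _).trans ?_
    rw [Finset.sum_apply]
    have h6 : ∀ B ∈ I, ‖y B * g B t‖
        ≤ ∑ k ∈ K, w k * (‖y B‖ * (if inB b (π k (β B)) t then 1 else 0)) := by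
      intro B hB
      rw [norm_mul]
      refine (mul_le_mul_of_nonneg_left ((hg B hB t).trans (hEV _ (hβ B hB) t))
        (norm_nonneg _)).trans ?_
      rw [Finset.mul_sum]
      exact le_of_eq (Finset.sum_congr rfl fun k _ => by ring)
    refine (Finset.sum_le_sum h6).trans ?_
    rw [Finset.sum_comm]
    refine le_of_eq (Finset.sum_congr rfl fun k _ => ?_)
    rw [Pi.smul_apply, smul_eq_mul, hG]
    simp only
    rw [Finset.mul_sum]
  have hq1 : (1 : ℝ≥0∞) ≤ ENNReal.ofReal q := by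
    rw [ENNReal.one_le_ofReal]
    linarith
  calc eLpNorm (fun t : TT d => ∑ B ∈ I, y B * g B t) (ENNReal.ofReal q) (haar d)
      ≤ eLpNorm (∑ k ∈ K, w k • G k) (ENNReal.ofReal q) (haar d) := eLpNorm_mono_real hpt
    _ ≤ ∑ k ∈ K, eLpNorm (w k • G k) (ENNReal.ofReal q) (haar d) :=
        eLpNorm_sum_le (fun k _ => ((hGm k).const_smul (w k)).aestronglyMeasurable) hq1
    _ ≤ ∑ k ∈ K, ENNReal.ofReal (w k) * ENNReal.ofReal X := by
        refine Finset.sum_le_sum fun k hk => ?_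
        rw [eLpNorm_const_smul, Real.enorm_eq_ofReal (hw0 k hk)]
        exact mul_le_mul_right (hGk k hk) _
    _ = ENNReal.ofReal ((∑ k ∈ K, w k) * X) := by
        rw [← Finset.sum_mul, ← ENNReal.ofReal_sum_of_nonneg hw0,
          ENNReal.ofReal_mul (Finset.sum_nonneg hw0)]
    _ ≤ ENNReal.ofReal (C₂ * C₁ * (b : ℝ) ^ (-((l : ℝ) / q)) * lp u I y) := by
        refine ENNReal.ofReal_le_ofReal ?_
        refine (mul_le_mul_of_nonneg_right hwC hX0).trans_eq ?_
        rw [hX]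
        ring

end Pool.Agent.Helper37.SU
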